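import Pool.Agent.Q264.GM.Stm

/-!
# The gain for one section
-/

set_option autoImplicit false

open MeasureTheory ProbabilityTheory Set Filter Topology
open scoped InnerProductSpace ENNReal

namespace Pool.Agent.Q164.GM

open Pool.Agent.Q264.GM

theorem ph_anti {a b : ℝ} (h : |a| ≤ b) : ph b ≤ ph a := by
  unfold ph
  have h1 : a ^ 2 ≤ b ^ 2 := by
    rw [← sq_abs a]
    exact pow_le_pow_left₀ (abs_nonneg a) h 2
  have h2 : (0 : ℝ) ≤ (√(2 * Real.pi))⁻¹ := by positivity
  refine mul_le_mul_of_nonneg_left (Real.exp_le_exp.2 ?_) h2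
  linarith

theorem meas_Ici (hPHI : S_PHI) (b : ℝ) : g1.real (Ici b) = P (-b) := by
  obtain ⟨-, -, -, -, hneg, -⟩ := hPHI
  have h1 : g1.real (Iio b) = P b := by
    haveI := noAtoms_gaussianReal (μ := 0) (v := 1) one_ne_zero
    unfold P
    exact measureReal_congr Iio_ae_eq_Iic
  have h2 : (Iio b)ᶜ = Ici b := compl_Iio
  rw [← h2, probReal_compl_eq_one_sub measurableSet_Iio, h1, hneg]

theorem meets (hPHI : S_PHI) (I : Set ℝ) (R : ℝ) (hc : Convex ℝ I) (hcl : IsClosed I)
    (hR : 0 < R) (h : P (-R) ≤ g1.real I) : ∃ x ∈ I, -R ≤ x ∧ x ≤ R := by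
  have hPHI' := hPHI
  obtain ⟨-, hmono, hpos, -⟩ := hPHI'
  by_contra hcon
  push Not at hcon
  have hne : I.Nonempty := by
    by_contra hemp
    rw [not_nonempty_iff_eq_empty] at hemp
    rw [hemp, measureReal_empty] at h
    linarith [hpos (-R)]
  obtain ⟨x, hx⟩ := hne
  have hoc := hc.ordConnected
  by_cases hxR : x < -R
  · have hsub : ∀ y ∈ I, y < -R := by
      intro y hy
      by_contra hy'
      push Not at hy'
      have h1 := hcon y hy hy'
      have h2 : (0 : ℝ) ∈ I := hoc.out hx hy ⟨by linarith, by linarith⟩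
      have h3 := hcon 0 h2 (by linarith)
      linarith
    have hbdd : BddAbove I := ⟨-R, fun y hy => (hsub y hy).le⟩
    have hmem := hcl.csSup_mem ⟨x, hx⟩ hbdd
    have h1 : g1.real I ≤ P (sSup I) := by
      unfold P
      exact measureReal_mono (fun y hy => le_csSup hbdd hy)
    have h2 : P (sSup I) < P (-R) := hmono (hsub _ hmem)
    linarith
  · push Not at hxR
    have hxR' := hcon x hx hxR
    have hsub : ∀ y ∈ I, R < y := by
      intro y hy
      by_cases hy' : -R ≤ y
      · exact hcon y hy hy'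
      · push Not at hy'
        have h2 : (0 : ℝ) ∈ I := hoc.out hy hx ⟨by linarith, by linarith⟩
        have h3 := hcon 0 h2 (by linarith)
        linarith
    have hbdd : BddBelow I := ⟨R, fun y hy => (hsub y hy).le⟩
    have hmem := hcl.csInf_mem ⟨x, hx⟩ hbdd
    have h1 : g1.real I ≤ P (-sInf I) := by
      rw [← meas_Ici hPHI]
      exact measureReal_mono (fun y hy => csInf_le hbdd hy)
    have h2 : P (-sInf I) < P (-R) := hmono (neg_lt_neg (hsub _ hmem))
    linarith

theorem missing (hPHI : S_PHI) (I : Set ℝ) (R : ℝ) (hR : 0 < R) (hR4 : P (-R) ≤ 1 / 4)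
    (h : g1.real I < 1 / 4) : ∃ z, z ∉ I ∧ -R ≤ z ∧ z ≤ R := by
  obtain ⟨-, -, -, -, hneg, -, -, hIcc, -⟩ := hPHI
  by_contra hcon
  push Not at hcon
  have hsub : Icc (-R) R ⊆ I := by
    intro z hz
    by_contra hz'
    have := hcon z hz' hz.1
    linarith [hz.2]
  have h1 : g1.real (Icc (-R) R) ≤ g1.real I := measureReal_mono hsub
  rw [hIcc (-R) R (by linarith)] at h1
  have h2 := hneg R
  linarith

theorem one_side (hPHI : S_PHI) (I : Set ℝ) (R r : ℝ) (hc : Convex ℝ I) (hcl : IsClosed I)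
    (hr : 0 < r) (hr1 : r ≤ 1) (x z : ℝ) (hx : x ∈ I) (hz : z ∉ I) (hxz : x < z)
    (hxR : -R ≤ x) (hzR : z ≤ R) : g1.real I + r * ph (R + 1) ≤ g1.real (nb r I) := by
  obtain ⟨hder, -, -, -, -, -, -, -, hIoc⟩ := hPHI
  have hoc := hc.ordConnected
  have hub : ∀ y ∈ I, y ≤ z := by
    intro y hy
    by_contra hy'
    push Not at hy'
    exact hz (hoc.out hx hy ⟨hxz.le, hy'.le⟩)
  have hbdd : BddAbove I := ⟨z, hub⟩
  have hmem := hcl.csSup_mem ⟨x, hx⟩ hbdd
  set b := sSup I with hb
  have hbx : x ≤ b := le_csSup hbdd hx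
  have hbz : b ≤ z := hub b hmem
  have hsub : I ∪ Ioc b (b + r) ⊆ nb r I := by
    rintro s (hs | hs)
    · refine ⟨0, ⟨by linarith, hr.le⟩, ?_⟩
      rw [sub_zero]
      exact hs
    · refine ⟨s - b, ⟨by linarith [hs.1], by linarith [hs.2]⟩, ?_⟩
      rw [sub_sub_cancel]
      exact hmem
  have hdisj : Disjoint I (Ioc b (b + r)) := by
    rw [Set.disjoint_left]
    intro y hy hy'
    exact absurd (le_csSup hbdd hy) (not_le.2 hy'.1)
  have h1 : g1.real (I ∪ Ioc b (b + r)) = g1.real I + g1.real (Ioc b (b + r)) :=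
    measureReal_union hdisj measurableSet_Ioc
  have h2 : g1.real (Ioc b (b + r)) = P (b + r) - P b := hIoc b (b + r) (by linarith)
  obtain ⟨c, hc1, hc2⟩ := exists_hasDerivAt_eq_slope P ph (show b < b + r by linarith)
    (fun y _ => (hder y).continuousAt.continuousWithinAt) (fun y _ => hder y)
  have h3 : P (b + r) - P b = r * ph c := by
    rw [hc2, show b + r - b = r by ring]
    field_simp
  have h4 : ph (R + 1) ≤ ph c := by
    refine ph_anti (abs_le.2 ⟨?_, ?_⟩)
    · linarith [hc1.1]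
    · linarith [hc1.2]
  have h5 : g1.real (I ∪ Ioc b (b + r)) ≤ g1.real (nb r I) := measureReal_mono hsub
  have h6 : r * ph (R + 1) ≤ r * ph c := mul_le_mul_of_nonneg_left h4 hr.le
  linarith

theorem real_neg (A : Set ℝ) : g1.real (Neg.neg ⁻¹' A) = g1.real A := by
  have h : Measure.map (fun x : ℝ => -x) g1 = g1 := by
    have := gaussianReal_map_neg (μ := 0) (v := 1)
    rw [neg_zero] at this
    exact this
  have h2 : g1 ((fun x : ℝ => -x) ⁻¹' A) = g1 A := by
    conv_rhs => rw [← h]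
    exact ((MeasurableEquiv.neg ℝ).map_apply A).symm
  exact congrArg ENNReal.toReal h2

theorem t_GAIN (hPHI : S_PHI) : S_GAIN := by
  intro I κ r hc hcl hκ hκ4 hlo hhi hr hr1
  have hPHI' := hPHI
  obtain ⟨-, hmono, -⟩ := hPHI'
  obtain ⟨x, hx, hx1, hx2⟩ := meets hPHI I (κ + 1) hc hcl (by linarith) hlo
  obtain ⟨z, hz, hz1, hz2⟩ := missing hPHI I (κ + 1) (by linarith)
    (by linarith [hmono (show -(κ + 1) < -κ by linarith)]) (by linarith)
  have hR : κ + 2 = (κ + 1) + 1 := by ring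
  rcases lt_trichotomy x z with h | h | h
  · rw [hR]
    exact one_side hPHI I (κ + 1) r hc hcl hr hr1 x z hx hz h hx1 hz2
  · exact absurd (h ▸ hx) hz
  · rw [hR]
    have h1 := one_side hPHI (Neg.neg ⁻¹' I) (κ + 1) r (by
        have := hc.is_linear_preimage (IsLinearMap.isLinearMap_neg (R := ℝ) (M := ℝ))
        exact this) (hcl.preimage continuous_neg) hr hr1 (-x) (-z)
      (by simpa using hx) (by simpa using hz) (by linarith) (by linarith) (by linarith)
    have h2 : nb r (Neg.neg ⁻¹' I) = Neg.neg ⁻¹' (nb r I) := by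
      ext s
      simp only [nb, mem_preimage]
      constructor
      · rintro ⟨τ, hτ, hs⟩
        refine ⟨-τ, ⟨by linarith [hτ.2], by linarith [hτ.1]⟩, ?_⟩
        have : -s - -τ = -(s - τ) := by ring
        rw [this]
        exact hs
      · rintro ⟨τ, hτ, hs⟩
        refine ⟨-τ, ⟨by linarith [hτ.2], by linarith [hτ.1]⟩, ?_⟩
        show -(s - -τ) ∈ I
        have : -(s - -τ) = -s - τ := by ring
        rw [this]
        exact hs
    rw [h2, real_neg, real_neg] at h1
    exact h1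

end Pool.Agent.Q164.GM
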