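import Pool.Agent.Q264.GM.Stm

/-!
# Orthonormal coordinates with last axis `u / ‖u‖`, and the transform in coordinates
-/

set_option autoImplicit false

open MeasureTheory ProbabilityTheory Set Filter Topology
open scoped InnerProductSpace ENNReal

namespace Pool.Agent.Q164.GM

open Pool.Agent.Q264.GM

/-- the coordinates `(y, s)` of `Fin (m + 1) → ℝ` -/
noncomputable def e1 (m : ℕ) : ((Fin m → ℝ) × ℝ) ≃ₗ[ℝ] (Fin (m + 1) → ℝ) where
  toFun p := Fin.snoc (α := fun _ => ℝ) p.1 p.2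
  invFun f := (fun i => f i.castSucc, f (Fin.last m))
  map_add' p q := by
    funext i
    refine Fin.lastCases ?_ (fun j => ?_) i <;> simp
  map_smul' c p := by
    funext i
    refine Fin.lastCases ?_ (fun j => ?_) i <;> simp
  left_inv p := by
    ext i <;> simp
  right_inv f := by
    funext i
    refine Fin.lastCases ?_ (fun j => ?_) i <;> simp

theorem e1_cast (m : ℕ) (p : (Fin m → ℝ) × ℝ) (i : Fin m) : e1 m p i.castSucc = p.1 i := by
  simp [e1]

theorem e1_last (m : ℕ) (p : (Fin m → ℝ) × ℝ) : e1 m p (Fin.last m) = p.2 := by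
  simp [e1]

theorem e1_mp (m : ℕ) : MeasurePreserving (e1 m) ((gm m).prod g1)
    (Measure.pi (fun _ : Fin (m + 1) => gaussianReal 0 1)) := by
  have h1 := (measurePreserving_piFinSuccAbove (α := fun _ : Fin (m + 1) => ℝ)
    (fun _ => gaussianReal 0 1) (Fin.last m)).symm
  have h2 : MeasurePreserving Prod.swap ((gm m).prod g1)
      ((gaussianReal 0 1).prod (Measure.pi (fun j : Fin m => gaussianReal 0 1))) :=
    Measure.measurePreserving_swap
  have h3 := h1.comp h2
  have h4 : (⇑(MeasurableEquiv.piFinSuccAbove (fun _ : Fin (m + 1) => ℝ) (Fin.last m)).symm ∘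
      Prod.swap) = ⇑(e1 m) := by
    funext p
    funext i
    refine Fin.lastCases ?_ (fun j => ?_) i
    · rw [e1_last]
      simp [MeasurableEquiv.piFinSuccAbove_symm_apply, Fin.insertNthEquiv]
    · rw [e1_cast]
      simp [MeasurableEquiv.piFinSuccAbove_symm_apply, Fin.insertNthEquiv]
  rw [← h4]
  exact h3

theorem t_TR : S_TR := by
  intro m u hu
  have hnu : ‖u‖ ≠ 0 := norm_ne_zero_iff.2 hu
  obtain ⟨b, hb⟩ := Orthonormal.exists_orthonormalBasis_extension_of_card_eq
    (𝕜 := ℝ) (E := E (m + 1)) (ι := Fin (m + 1)) (by simp)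
    (v := fun _ => (‖u‖⁻¹ : ℝ) • u) (s := {Fin.last m}) (by
      constructor
      · intro i
        simp [Set.restrict, norm_smul, hnu]
      · intro i j hij
        exact absurd (Subsingleton.elim i j) hij)
  have hbl : b (Fin.last m) = (‖u‖⁻¹ : ℝ) • u := hb _ rfl
  have hub : u = ‖u‖ • b (Fin.last m) := by
    rw [hbl, smul_smul, mul_inv_cancel₀ hnu, one_smul]
  let T : ((Fin m → ℝ) × ℝ) ≃L[ℝ] E (m + 1) :=
    ((e1 m).trans b.toBasis.equivFun.symm).toContinuousLinearEquiv
  have hT : ∀ p, T p = ∑ i, e1 m p i • b i := by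
    intro p
    show b.toBasis.equivFun.symm (e1 m p) = _
    rw [Module.Basis.equivFun_symm_apply]
    simp
  refine ⟨T, ?_, ?_, ?_⟩
  · intro s
    rw [hT, Fin.sum_univ_castSucc, e1_last]
    have h0 : ∀ i : Fin m, e1 m ((0 : Fin m → ℝ), s) i.castSucc • b i.castSucc = 0 := by
      intro i
      rw [e1_cast]
      simp
    rw [Finset.sum_congr rfl (fun i _ => h0 i), Finset.sum_const_zero, zero_add, hbl, smul_smul,
      div_eq_mul_inv]
  · intro y
    rw [hT, Fin.sum_univ_castSucc, e1_last]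
    rw [zero_smul, add_zero, sum_inner]
    refine Finset.sum_eq_zero (fun i _ => ?_)
    rw [hub, inner_smul_left, inner_smul_right, b.inner_eq_ite]
    rw [if_neg (by exact (Fin.castSucc_lt_last i).ne)]
    simp
  · rw [stdGaussian_eq_map_pi_orthonormalBasis b, ← (e1_mp m).map_eq,
      Measure.map_map (by fun_prop) (e1_mp m).measurable]
    have h5 : ⇑T = (fun x : Fin (m + 1) → ℝ => ∑ i, x i • b i) ∘ ⇑(e1 m) := by
      funext p
      exact hT p
    rw [h5]

theorem t_PULL : S_PULL := by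
  intro m u hu K T hT0 hTy
  have hnu : 0 < ‖u‖ := norm_pos_iff.2 hu
  -- decomposition
  have hdec : ∀ (y : Fin m → ℝ) (s : ℝ), T (y, s) = T (y, 0) + (s / ‖u‖) • u := by
    intro y s
    rw [← hT0 s, ← map_add]
    simp
  -- sections
  have hsec : ∀ y : Fin m → ℝ, sec (T ⁻¹' K) y = Sec K u (T (y, 0)) := by
    intro y
    ext s
    simp only [sec, Sec, mem_setOf_eq, mem_preimage]
    rw [hdec]
  -- orthogonal vectors
  have horth : ∀ x : E (m + 1), ⟪x, u⟫_ℝ = 0 → ∃ y : Fin m → ℝ, x = T (y, 0) := by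
    intro x hx
    obtain ⟨⟨y, s⟩, hys⟩ := T.surjective x
    refine ⟨y, ?_⟩
    rw [hdec] at hys
    have h1 : ⟪x, u⟫_ℝ = (s / ‖u‖) * ‖u‖ ^ 2 := by
      rw [← hys, inner_add_left, hTy, zero_add, real_inner_smul_left, real_inner_self_eq_norm_sq]
    rw [hx] at h1
    have h2 : s / ‖u‖ = 0 := by
      rcases mul_eq_zero.1 h1.symm with h | h
      · exact h
      · exact absurd h (by positivity)
    rw [← hys, h2, zero_smul, add_zero]
  ext ⟨y, s⟩
  rw [circ, if_neg hu]
  simp only [circc, mem_preimage, mem_inter_iff, mem_setOf_eq]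
  constructor
  · rintro ⟨⟨k, hk, τ, hτ, hx⟩, y', hy', s', hx'⟩
    obtain ⟨⟨a, c⟩, rfl⟩ := T.surjective k
    have h1 : T (y, s) = T (a, c + τ * ‖u‖) := by
      rw [hx, hdec a (c + τ * ‖u‖), hdec a c, add_assoc, ← add_smul]
      congr 2
      field_simp
    have h2 := T.injective h1
    have h3 : y = a := congrArg Prod.fst h2
    have h4 : s = c + τ * ‖u‖ := congrArg Prod.snd h2
    obtain ⟨a', ha'⟩ := horth y' hy'.1
    have h5 : T (y, s) = T (a', s' * ‖u‖) := by
      rw [hx', hdec a' (s' * ‖u‖), ha']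
      congr 2
      field_simp
    have h6 : y = a' := congrArg Prod.fst (T.injective h5)
    refine ⟨?_, τ * ‖u‖, ⟨?_, ?_⟩, ?_⟩
    · rw [hsec y, h6, ← ha']
      exact hy'.2
    · nlinarith [hτ.1, hτ.2]
    · nlinarith [hτ.1, hτ.2]
    · show (y, s - τ * ‖u‖) ∈ T ⁻¹' K
      rw [mem_preimage, h3, h4]
      have : c + τ * ‖u‖ - τ * ‖u‖ = c := by ring
      rw [this]
      exact hk
  · rintro ⟨h1, τ, hτ, hs⟩
    have hs' : T (y, s - τ) ∈ K := hs
    refine ⟨⟨T (y, s - τ), hs', τ / ‖u‖, ⟨?_, ?_⟩, ?_⟩, T (y, 0), ⟨hTy y, ?_⟩, s / ‖u‖, ?_⟩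
    · rw [le_div_iff₀ hnu]
      linarith [hτ.1]
    · rw [div_le_iff₀ hnu]
      linarith [hτ.2]
    · rw [hdec y s, hdec y (s - τ), add_assoc, ← add_smul]
      congr 2
      ring
    · rw [← hsec y]
      exact h1
    · exact hdec y s

end Pool.Agent.Q164.GM
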